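import Pool.Agent.Helper23.LD3.MV
import Pool.Agent.Helper88.LD2.WB22
import Pool.Agent.Helper52.LD3.S3
import Pool.Agent.Helper34.LD2.WA2
import Pool.Agent.Helper41.LD.P
import Pool.Agent.Helper41.LD3.Defs

/-!
# Project LD3, block S3: one block of the construction for a finite family of sequences
-/

set_option autoImplicit false

namespace Pool.Agent.Helper9.LD3

open Set MeasureTheory Filter Topology
open Pool.Agent.Helper41.LD (idx haar steer_step)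
open Pool.Agent.Helper41.LD2
open Pool.Agent.Helper34.LD2 (M_children)
open Pool.Agent.Helper68.LD2 (M_inc)
open Pool.Agent.Helper88.LD2 (W_nonneg W_le W_mean)
open Pool.Agent.Helper52.LD3 (gain3)
open Pool.Agent.Helper23.LD3 (M_var3)

lemma sum_mu (K : ℕ) : ∑ p ∈ idx K, (1 / 2 : ℝ) ^ p.1 = K := by
  unfold idx
  rw [Finset.sum_sigma]
  have : ∀ k ∈ Finset.range K, ∑ s ∈ Finset.range (2 ^ k), (1 / 2 : ℝ) ^ (⟨k, s⟩ : Σ _ : ℕ, ℕ).1 = 1 := by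
    intro k _
    show ∑ s ∈ Finset.range (2 ^ k), (1 / 2 : ℝ) ^ k = 1
    rw [Finset.sum_const, Finset.card_range, nsmul_eq_mul]
    push_cast
    rw [← mul_pow]
    norm_num
  rw [Finset.sum_congr rfl this]
  simp

lemma lt_of_idx {K : ℕ} {p : Σ _ : ℕ, ℕ} (hp : p ∈ idx K) : p.1 < K := by
  unfold idx at hp
  rw [Finset.mem_sigma, Finset.mem_range] at hp
  exact hp.1

lemma sum_mu3 (m K : ℕ) : ∑ p ∈ Finset.range m ×ˢ idx K, (1 / 2 : ℝ) ^ p.2.1 = m * K := by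
  rw [Finset.sum_product]
  simp only
  rw [Finset.sum_congr rfl fun s _ => sum_mu K, Finset.sum_const, Finset.card_range, nsmul_eq_mul]

open Classical in
theorem step3 {m : ℕ} (hm : 1 ≤ m) {U : ℕ → ℕ → ℝ → ℝ} {β : ℕ → ℝ} {K r L B : ℕ} {G Λ Cb : ℝ} (n L' m₁ m₂ t : ℕ → ℕ)
    (hU : ∀ s j, Measurable (U s j)) (hβ : ∀ s < m, 1 < β s) (hCb : ∀ s < m, β s / (β s - 1) ≤ Cb) (hCb1 : 1 ≤ Cb) (hK : 2 ≤ K) (hr1 : 1 ≤ r)
    (hL' : ∀ s < m, 3 * r ≤ L' s ∧ L' s ≤ L) (hCL : Cb ≤ L) (hr2 : (r : ℝ) ^ 2 ≤ L) (hGL : (m : ℝ) * Cb ^ 2 * L ≤ G * Λ) (hG : 1 ≤ G) (hΛ : 1 ≤ Λ)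
    (hbig : 8192 * G * K * Λ ≤ 2 ^ K) {a ℓ : ℝ} (hw : ∀ s < m, Wd (U s) (β s) (n s) (m₁ s) a ℓ) (hm₁ : ∀ s < m, n s + L' s ≤ m₁ s)
    (hcov : ∀ s < m, ∀ k i j₁ j₂ : ℕ, n s ≤ j₁ → j₁ ≤ j₂ →
      |∫ x in a..(a + ℓ), haar k i (U s j₁ x) * haar k i (U s j₂ x)| ≤ 4 * (1 / 2) ^ k * (β s)⁻¹ ^ (j₂ - j₁) * ℓ)
    (hB : 1 ≤ B) (hw' : ∀ s < m, ∀ b < B, Wd (U s) (β s) (n s + L' s) (m₂ s) (a + b * (ℓ / B)) (ℓ / B))
    (hPC : ∀ s < m, ∀ s' < m, ∀ k < K, ∀ i < 2 ^ k, ∀ k' < K, ∀ i' < 2 ^ k',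
      |(∑ b ∈ Finset.range B, (M (U s) k i (a + b * (ℓ / B)) (ℓ / B) - M (U s) k i a ℓ) * A (U s') k' i' (t s') (a + b * (ℓ / B)) (ℓ / B)) / B -
        (if s = s' ∧ k = k' ∧ i = i' then (1 / 2) ^ k else 0)| ≤ (1 / 2) ^ (4 * K))
    (hNB : ∀ s < m, NB (U s) (n s) r K a ℓ)
    (hPot : ∑ s ∈ Finset.range m, Pot (U s) (n s) r K (1 / (8192 * G * K * Λ)) a ℓ ≤ 16 ^ K) :
    2 * (1 / 2 : ℝ) ^ (3 * K) * B ≤ (((Finset.range B).filter fun b : ℕ =>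
      ∑ s ∈ Finset.range m, Pot (U s) (n s + L' s) r K (1 / (8192 * G * K * Λ)) (a + b * (ℓ / B)) (ℓ / B) ≤ 16 ^ K).card : ℝ) := by
  have hK1 : (2 : ℝ) ≤ K := by exact_mod_cast hK
  have hm1 : (1 : ℝ) ≤ m := by exact_mod_cast hm
  have hB1 : (1 : ℝ) ≤ B := by exact_mod_cast hB
  have hr1' : (1 : ℝ) ≤ r := by exact_mod_cast hr1
  have hL1 : (1 : ℝ) ≤ L := hCb1.trans hCL
  have hℓ : 0 < ℓ := (hw 0 (by omega)).pos
  have hℓB : 0 < ℓ / B := by positivity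
  have h3r : 3 * (r : ℝ) ≤ L := by
    have := (hL' 0 (by omega)).1.trans (hL' 0 (by omega)).2
    exact_mod_cast this
  have hG0 : (0 : ℝ) < G := by linarith
  have hΛ0 : (0 : ℝ) < Λ := by linarith
  have hCb2 : 1 ≤ Cb ^ 2 := by nlinarith
  have hCbL0 : 0 ≤ Cb ^ 2 * (L : ℝ) := by positivity
  have hmL : (m : ℝ) * L ≤ G * Λ := by
    refine le_trans ?_ hGL
    have : (L : ℝ) * 1 ≤ L * Cb ^ 2 := by gcongr
    calc (m : ℝ) * L = m * (L * 1) := by ring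
      _ ≤ m * (L * Cb ^ 2) := by gcongr
      _ = m * Cb ^ 2 * L := by ring
  have hLG : (L : ℝ) ≤ G * Λ := by
    refine le_trans ?_ hmL
    calc (L : ℝ) = 1 * L := by ring
      _ ≤ m * L := by gcongr
  have hmG : (m : ℝ) ≤ G * Λ := by
    refine le_trans ?_ hmL
    calc (m : ℝ) = m * 1 := by ring
      _ ≤ m * L := by gcongr
  have hGΛ : 1 ≤ G * Λ := hL1.trans hLG
  have hmK : m * K * 8192 ≤ 2 ^ K := by
    have h : (m : ℝ) * K * 8192 ≤ 2 ^ K := by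
      refine le_trans ?_ hbig
      calc (m : ℝ) * K * 8192 ≤ (G * Λ) * K * 8192 := by gcongr
        _ = 8192 * G * K * Λ := by ring
    exact_mod_cast h
  have hm2 : m ≤ 2 ^ K := by
    have : m * 1 ≤ m * K := Nat.mul_le_mul_left m (by omega)
    omega
  -- the parameters
  obtain ⟨lam, hlam⟩ : ∃ lam : ℝ, lam = 1 / (8192 * G * K * Λ) := ⟨_, rfl⟩
  obtain ⟨D, hD⟩ : ∃ D : ℝ, D = 5 * (L : ℝ) := ⟨_, rfl⟩
  obtain ⟨ρ, hρ⟩ : ∃ ρ : ℝ, ρ = 2 * (1 / 2) ^ (3 * K) := ⟨_, rfl⟩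
  have hlam0 : 0 < lam := by rw [hlam]; positivity
  have hD0 : 0 < D := by rw [hD]; positivity
  have hlamK : lam * (8192 * G * K * Λ) = 1 := by
    rw [hlam]
    field_simp
  have hlamL : lam * (8192 * K * L) ≤ 1 := by
    rw [← hlamK]
    have h1 : 8192 * (K : ℝ) * L ≤ 8192 * G * K * Λ := by
      calc 8192 * (K : ℝ) * L ≤ 8192 * K * (G * Λ) := by gcongr
        _ = 8192 * G * K * Λ := by ring
    gcongr
  have hhalf : (1 / 2 : ℝ) ^ K * 2 ^ K = 1 := by rw [← mul_pow]; norm_num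
  have hhp : 0 < (1 / 2 : ℝ) ^ K := by positivity
  have h3K : (1 / 2 : ℝ) ^ (3 * K) = (1 / 2) ^ K * (1 / 2) ^ K * (1 / 2) ^ K := by
    rw [← pow_add, ← pow_add]
    congr 1
    ring
  have hhK : (1 / 2 : ℝ) ^ K * (8192 * G * K * Λ) ≤ 1 := by
    calc (1 / 2 : ℝ) ^ K * (8192 * G * K * Λ) ≤ (1 / 2) ^ K * 2 ^ K := by gcongr
      _ = 1 := hhalf
  have hhlam : (1 / 2 : ℝ) ^ K ≤ lam := by
    have h3 : (1 / 2 : ℝ) ^ K * (8192 * G * K * Λ) ≤ lam * (8192 * G * K * Λ) := by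
      rw [hlamK]
      exact hhK
    exact le_of_mul_le_mul_right h3 (by positivity)
  have hlamr : lam * r ≤ 1 / 2 := by
    have h1 : lam * r * 1 ≤ lam * (8192 * K * L) / 2 := by
      have h2 : (r : ℝ) * 1 ≤ 8192 * K * L / 2 := by
        have : (2 : ℝ) * L ≤ K * L := by gcongr
        nlinarith
      calc lam * r * 1 = lam * (r * 1) := by ring
        _ ≤ lam * (8192 * K * L / 2) := by gcongr
        _ = lam * (8192 * K * L) / 2 := by ring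
    linarith
  have key := steer_step (Finset.range m ×ˢ idx K) hB (fun p => M (U p.1) p.2.1 p.2.2 a ℓ) (fun p => W (U p.1) (n p.1) r p.2.1 p.2.2 a ℓ)
    (fun p => (1 / 2 : ℝ) ^ p.2.1)
    (fun p b => M (U p.1) p.2.1 p.2.2 (a + b * (ℓ / B)) (ℓ / B) - M (U p.1) p.2.1 p.2.2 a ℓ)
    (fun p b => W (U p.1) (n p.1 + L' p.1) r p.2.1 p.2.2 (a + b * (ℓ / B)) (ℓ / B)) (lam := lam) (D := D) (E₁ := 80 * Cb ^ 2 * L)
    (E₂ := 4 * (r : ℝ) ^ 2) (E₃ := (r : ℝ) ^ 2) (γ := 1 / (2 * m * K)) (τ := 16 ^ K) (μ₀ := (1 / 2) ^ K) (K := m * K) (ρ := ρ)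
    hlam0 hD0 (by
      rw [hD]
      have h1 : lam * (5 * L) ≤ lam * (8192 * K * L) / 2 := by
        have h2 : 5 * (L : ℝ) ≤ 8192 * K * L / 2 := by
          have : (2 : ℝ) * L ≤ K * L := by gcongr
          nlinarith
        calc lam * (5 * L) ≤ lam * (8192 * K * L / 2) := by gcongr
          _ = lam * (8192 * K * L) / 2 := by ring
      linarith) (by positivity) (by positivity) (by positivity) (by positivity)
    (fun p hp => by
      have hs : p.1 < m := Finset.mem_range.1 (Finset.mem_product.1 hp).1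
      rw [Finset.sum_sub_distrib, M_children (hβ p.1 hs) (hw p.1 hs) hB (hw' p.1 hs) p.2.1 p.2.2, Finset.sum_const, Finset.card_range, nsmul_eq_mul]
      ring)
    (fun p hp b hb => by
      have hs : p.1 < m := Finset.mem_range.1 (Finset.mem_product.1 hp).1
      refine (M_inc (hβ p.1 hs) (hw p.1 hs) (hNB p.1 hs) (lt_of_idx (Finset.mem_product.1 hp).2) p.2.2 hB hb (hw' p.1 hs b hb)).trans ?_
      have h1 : ((L' p.1 : ℕ) : ℝ) ≤ L := by exact_mod_cast (hL' p.1 hs).2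
      have h2 := hCb p.1 hs
      rw [hD]
      linarith)
    (fun p hp => by
      have hs : p.1 < m := Finset.mem_range.1 (Finset.mem_product.1 hp).1
      refine (M_var3 (hβ p.1 hs) (hw p.1 hs) (hNB p.1 hs) (lt_of_idx (Finset.mem_product.1 hp).2) p.2.2 hB (hw' p.1 hs)
        (by have := (hL' p.1 hs).1; omega) (fun j₁ j₂ h1 h2 _ => hcov p.1 hs p.2.1 p.2.2 j₁ j₂ h1 h2)).trans ?_
      have h1 : ((L' p.1 : ℕ) : ℝ) ≤ L := by exact_mod_cast (hL' p.1 hs).2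
      have h2 := hCb p.1 hs
      have h3 : 0 ≤ β p.1 / (β p.1 - 1) := div_nonneg (by linarith [hβ p.1 hs]) (by linarith [hβ p.1 hs])
      have h4 : (β p.1 / (β p.1 - 1)) ^ 2 ≤ Cb ^ 2 := by gcongr
      gcongr)
    (fun p _ => W_nonneg (n p.1) r p.2.1 p.2.2 a hℓ) (fun p _ => W_le (hU p.1) (n p.1) r p.2.1 p.2.2 a hℓ)
    (fun p _ b _ => W_nonneg (n p.1 + L' p.1) r p.2.1 p.2.2 _ hℓB) (fun p _ b _ => W_le (hU p.1) (n p.1 + L' p.1) r p.2.1 p.2.2 _ hℓB)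
    (fun p hp => by
      have hs : p.1 < m := Finset.mem_range.1 (Finset.mem_product.1 hp).1
      exact W_mean p.2.1 p.2.2 (hw p.1 hs) (hm₁ p.1 hs) hB (by have := (hL' p.1 hs).1; omega))
    (fun g => gain3 hm (by omega) hm2 hU hℓ hB t hPC g)
    (fun p hp => pow_le_pow_of_le_one (by norm_num) (by norm_num) (lt_of_idx (Finset.mem_product.1 hp).2).le)
    (sum_mu3 m K).le
    (by
      have h1 : (1 / 2 : ℝ) ^ K * 16 ^ K = 8 ^ K := by rw [← mul_pow]; norm_num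
      rw [h1]
      have h2 : (m : ℝ) * K * 8192 ≤ 2 ^ K := by exact_mod_cast hmK
      have h3 : (2 : ℝ) ^ K ≤ 8 ^ K := by gcongr; norm_num
      have h4 : 0 ≤ (m : ℝ) * K := by positivity
      linarith)
    (by positivity)
    (by
      have h2 : 0 ≤ lam * r := by positivity
      nlinarith)
    (by
      have h0 : (r : ℝ) ^ 2 ≤ Cb ^ 2 * L := by
        calc (r : ℝ) ^ 2 ≤ 1 * L := by linarith
          _ ≤ Cb ^ 2 * L := by gcongr
      have h1 : 80 * Cb ^ 2 * (L : ℝ) + 8 * (4 * (r : ℝ) ^ 2) ≤ 112 * (Cb ^ 2 * L) := by linarith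
      have h2 : 24 * lam * (112 * (Cb ^ 2 * L)) ≤ 1 / (2 * m * K) := by
        rw [le_div_iff₀ (by positivity)]
        calc 24 * lam * (112 * (Cb ^ 2 * L)) * (2 * m * K) = 5376 * lam * K * (m * Cb ^ 2 * L) := by ring
          _ ≤ 5376 * lam * K * (G * Λ) := by gcongr
          _ = 5376 / 8192 * (lam * (8192 * G * K * Λ)) := by ring
          _ ≤ 1 := by rw [hlamK]; norm_num
      exact le_trans (by gcongr) h2)
    (by
      rw [← hlam] at hPot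
      rw [Finset.sum_product]
      exact hPot)
    (by
      rw [hρ, h3K]
      have h1 : (1 / 2 : ℝ) ^ K ≤ 1 / 4 := by
        calc (1 / 2 : ℝ) ^ K ≤ (1 / 2) ^ 2 := pow_le_pow_of_le_one (by norm_num) (by norm_num) hK
          _ = 1 / 4 := by norm_num
      have h2 : (1 / 2 : ℝ) ^ K * (1 / 2) ^ K ≤ 1 / 4 * (1 / 4) := by gcongr
      have h3 : (1 / 2 : ℝ) ^ K * (1 / 2) ^ K * (1 / 2) ^ K ≤ 1 / 4 * (1 / 4) * (1 / 4) := by gcongr
      linarith)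
    (by
      rw [hρ, h3K]
      have h2 : (1 / 2 : ℝ) ^ K * (1 / 2) ^ K ≤ lam * lam := by gcongr
      have h5 : 1 ≤ Cb ^ 2 * (L : ℝ) := by nlinarith
      calc 2 * ((1 / 2 : ℝ) ^ K * (1 / 2) ^ K * (1 / 2) ^ K) ≤ 2 * (lam * lam * (1 / 2) ^ K) := by gcongr
        _ ≤ 10 * (lam * lam * (1 / 2) ^ K) * 1 := by
          have : 0 ≤ lam * lam * (1 / 2 : ℝ) ^ K := by positivity
          linarith
        _ ≤ 10 * (lam * lam * (1 / 2) ^ K) * (Cb ^ 2 * L) := by gcongr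
        _ = lam ^ 2 * (80 * Cb ^ 2 * L) * (1 / 2) ^ K / 8 := by ring)
    (by
      rw [hρ, h3K, le_div_iff₀ (by positivity)]
      have h1 : (1 / 2 : ℝ) ^ K ≤ 1 := pow_le_one₀ (by norm_num) (by norm_num)
      have h4 : 1 / (2 * (m : ℝ) * K) * (1 / 2) ^ K = (1 / 2) ^ K * (1 / (2 * m * K)) := by ring
      rw [h4]
      have h5 : 2 * ((1 / 2 : ℝ) ^ K * (1 / 2) ^ K * (1 / 2) ^ K) * (8 * D) =
          (1 / 2) ^ K * ((1 / 2 : ℝ) ^ K * (1 / 2) ^ K * (16 * D)) := by ring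
      rw [h5]
      apply mul_le_mul_of_nonneg_left _ hhp.le
      rw [le_div_iff₀ (by positivity), hD]
      calc (1 / 2 : ℝ) ^ K * (1 / 2) ^ K * (16 * (5 * L)) * (2 * m * K) ≤ (1 / 2) ^ K * 1 * (16 * (5 * L)) * (2 * m * K) := by gcongr
        _ = (1 / 2) ^ K * (160 * K * (m * L)) := by ring
        _ ≤ (1 / 2) ^ K * (160 * K * (G * Λ)) := by gcongr
        _ ≤ (1 / 2) ^ K * (8192 * K * (G * Λ)) := by
          apply mul_le_mul_of_nonneg_left _ hhp.le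
          have : 0 ≤ (K : ℝ) * (G * Λ) := by positivity
          linarith
        _ = (1 / 2) ^ K * (8192 * G * K * Λ) := by ring
        _ ≤ 1 := hhK)
  rw [hρ] at key
  refine key.trans (Nat.cast_le.2 (Finset.card_le_card ?_))
  intro b hb
  rw [Finset.mem_filter] at hb ⊢
  refine ⟨hb.1, ?_⟩
  rw [← hlam]
  unfold Pot
  refine le_trans (le_of_eq ?_) hb.2
  rw [Finset.sum_product]
  refine Finset.sum_congr rfl fun s _ => Finset.sum_congr rfl fun p _ => ?_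
  simp only
  rw [add_sub_cancel]

end Pool.Agent.Helper9.LD3
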